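import Mathlib

namespace Pool.Agent.Results.MP_332ffb_mp.Counter
open Set Real MeasureTheory

/-- Degree of the vertex `v` once the leads are attached: edge `e` runs from `src e` to `tgt e`,
and `n v` leads are attached at `v`. -/
def deg {p q : ℕ} (src tgt : Fin q → Fin p) (n : Fin p → ℕ) (v : Fin p) : ℕ :=
  (Finset.univ.filter fun e => src e = v).card + (Finset.univ.filter fun e => tgt e = v).card + n v

/-- `lam` is an eigenvalue of the Kirchhoff Laplacian of the metric graph with leads: `u e` is the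
eigenfunction on the edge `e = [0, l e]`, `r v j` on the `j`-th lead `[0, ∞)` at `v`, and `c v` is
its value at the vertex `v`. -/
def IsEig {p q : ℕ} (src tgt : Fin q → Fin p) (n : Fin p → ℕ) (l : Fin q → ℝ) (lam : ℝ) : Prop :=
  ∃ (u u' : Fin q → ℝ → ℝ) (r r' : (v : Fin p) → Fin (n v) → ℝ → ℝ) (c : Fin p → ℝ),
    (∀ e, ∀ x ∈ Icc 0 (l e), HasDerivWithinAt (u e) (u' e x) (Icc 0 (l e)) x ∧
      HasDerivWithinAt (u' e) (-lam * u e x) (Icc 0 (l e)) x) ∧
    (∀ v j, ∀ x ∈ Ici (0 : ℝ), HasDerivWithinAt (r v j) (r' v j x) (Ici 0) x ∧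
      HasDerivWithinAt (r' v j) (-lam * r v j x) (Ici 0) x) ∧
    (∀ v j, MemLp (r v j) 2 (volume.restrict (Ici 0))) ∧
    (∀ e, u e 0 = c (src e) ∧ u e (l e) = c (tgt e)) ∧ (∀ v j, r v j 0 = c v) ∧
    (∀ v, ∑ e ∈ Finset.univ.filter (fun e => src e = v), u' e 0
      - ∑ e ∈ Finset.univ.filter (fun e => tgt e = v), u' e (l e) + ∑ j, r' v j 0 = 0) ∧
    ∃ e, ∃ x ∈ Icc 0 (l e), u e x ≠ 0

lemma countable_zero (P Q R : ℤ) (h : ¬ (P = 0 ∧ Q = 0 ∧ R = 0)) :
    {t : ℝ | 0 < t ∧ P * arctan t + Q * π + R * arctan (2 / t) = 0}.Countable := by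
  by_cases h0 : P = 0 ∧ R = 0
  · convert countable_empty
    ext t
    simp only [h0.1, h0.2, Int.cast_zero, zero_mul, zero_add, add_zero, mul_eq_zero,
      Int.cast_eq_zero, pi_ne_zero, or_false, mem_ofPred_eq, mem_empty_iff_false, iff_false,
      not_and]
    intro _ hQ
    exact h ⟨h0.1, hQ, h0.2⟩
  set f : ℝ → ℝ := fun t => P * arctan t + Q * π + R * arctan (2 / t) with hf
  have hd : ∀ t, 0 < t → HasDerivAt f (P / (1 + t ^ 2) - 2 * R / (t ^ 2 + 4)) t := by
    intro t ht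
    have h1 : HasDerivAt (fun t : ℝ => 2 / t) (-2 / t ^ 2) t := by
      have := (hasDerivAt_const t (2 : ℝ)).div (hasDerivAt_id t) ht.ne'
      refine HasDerivAt.congr_deriv this ?_
      simp
    have := (((hasDerivAt_arctan t).const_mul (P : ℝ)).add_const (Q * π)).add
      (h1.arctan.const_mul (R : ℝ))
    refine HasDerivAt.congr_deriv this ?_
    field_simp
    ring
  have hu : ∃ t0 : ℝ, ∀ t : ℝ, 0 < t → P / (1 + t ^ 2) - 2 * R / (t ^ 2 + 4) = 0 → t = t0 := by
    refine ⟨√((2 * R - 4 * P) / (P - 2 * R)), fun t ht h1 => ?_⟩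
    have h2 : ((P : ℝ) - 2 * R) * t ^ 2 = 2 * R - 4 * P := by
      field_simp at h1
      linarith
    have h3 : (P : ℝ) - 2 * R ≠ 0 := by
      intro h3
      rw [h3, zero_mul] at h2
      apply h0
      have a1 : (P : ℝ) = 0 := by linarith
      have a2 : (R : ℝ) = 0 := by linarith
      exact ⟨by exact_mod_cast a1, by exact_mod_cast a2⟩
    rw [← h2, mul_div_cancel_left₀ _ h3, sqrt_sq ht.le]
  obtain ⟨t0, ht0⟩ := hu
  have rolle : ∀ x y, 0 < x → x < y → f x = 0 → f y = 0 → t0 ∈ Ioo x y := by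
    intro x y hx hxy h1 h2
    obtain ⟨z, hz, hz2⟩ := exists_hasDerivAt_eq_zero hxy
      (fun t ht => (hd t (lt_of_lt_of_le hx ht.1)).continuousAt.continuousWithinAt)
      (h1.trans h2.symm) (fun t ht => hd t (hx.trans ht.1))
    rw [← ht0 z (hx.trans hz.1) hz2]; exact hz
  have s1 : {t : ℝ | (0 < t ∧ f t = 0) ∧ t ≤ t0}.Subsingleton := by
    intro x hx y hy
    rcases lt_trichotomy x y with h | h | h
    · exact absurd (rolle x y hx.1.1 h hx.1.2 hy.1.2).2 (not_lt.2 hy.2)
    · exact h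
    · exact absurd (rolle y x hy.1.1 h hy.1.2 hx.1.2).2 (not_lt.2 hx.2)
  have s2 : {t : ℝ | (0 < t ∧ f t = 0) ∧ t0 ≤ t}.Subsingleton := by
    intro x hx y hy
    rcases lt_trichotomy x y with h | h | h
    · exact absurd (rolle x y hx.1.1 h hx.1.2 hy.1.2).1 (not_lt.2 hx.2)
    · exact h
    · exact absurd (rolle y x hy.1.1 h hy.1.2 hx.1.2).1 (not_lt.2 hy.2)
  refine (s1.countable.union s2.countable).mono fun t ht => ?_
  rcases le_total t t0 with h | h
  · exact Or.inl ⟨ht, h⟩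
  · exact Or.inr ⟨ht, h⟩

lemma exists_t : ∃ t : ℝ, 0 < t ∧ ∀ P Q R : ℤ,
    P * arctan t + Q * π + R * arctan (2 / t) = 0 → P = 0 ∧ Q = 0 ∧ R = 0 := by
  have hc : (⋃ x : {x : ℤ × ℤ × ℤ // ¬ (x.1 = 0 ∧ x.2.1 = 0 ∧ x.2.2 = 0)},
      {t : ℝ | 0 < t ∧ x.1.1 * arctan t + x.1.2.1 * π + x.1.2.2 * arctan (2 / t) = 0}).Countable :=
    countable_iUnion fun x => countable_zero _ _ _ x.2
  obtain ⟨t, ht, ht2⟩ := (hc.dense_compl ℝ).exists_mem_open isOpen_Ioi (nonempty_Ioi (a := 0))
  refine ⟨t, ht2, fun P Q R h => ?_⟩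
  by_contra hn
  exact ht (mem_iUnion.2 ⟨⟨(P, Q, R), hn⟩, ht2, h⟩)

theorem result : ∃ (p q : ℕ) (src tgt : Fin q → Fin p) (n : Fin p → ℕ) (l : Fin q → ℝ),
    (SimpleGraph.fromRel fun x y => ∃ e, src e = x ∧ tgt e = y).Connected ∧
    (∀ e, src e ≠ tgt e) ∧ (∃ v, 1 ≤ n v) ∧ (∀ v, deg src tgt n v ≠ 2) ∧
    (∀ e, 0 < l e) ∧ LinearIndependent ℤ l ∧ IsEig src tgt n l 1 := by
  obtain ⟨t, ht, hind⟩ := exists_t
  set a := arctan t with ha
  set c := arctan (2 / t) with hc
  have ha0 : 0 < a := arctan_pos.2 ht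
  have hc0 : 0 < c := arctan_pos.2 (by positivity)
  have hca := cos_arctan_pos t
  have hcc := cos_arctan_pos (2 / t)
  have hsa : sin a = t * cos a := by
    have := tan_arctan t
    rw [tan_eq_sin_div_cos, div_eq_iff hca.ne'] at this
    exact this
  have hsc : t * sin c = 2 * cos c := by
    have := tan_arctan (2 / t)
    rw [tan_eq_sin_div_cos, div_eq_iff hcc.ne'] at this
    rw [hc, this]; field_simp
  refine ⟨3, 3, ![0, 0, 1], ![1, 1, 2], ![1, 0, 0], ![a, a + π, c], ?_, by decide, ⟨0, by decide⟩,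
    by decide, ?_, ?_, ?_⟩
  · have h01 : (SimpleGraph.fromRel fun x y : Fin 3 =>
        ∃ e : Fin 3, ![0, 0, 1] e = x ∧ ![1, 1, 2] e = y).Adj 0 1 := by
      rw [SimpleGraph.fromRel_adj]; decide
    have h12 : (SimpleGraph.fromRel fun x y : Fin 3 =>
        ∃ e : Fin 3, ![0, 0, 1] e = x ∧ ![1, 1, 2] e = y).Adj 1 2 := by
      rw [SimpleGraph.fromRel_adj]; decide
    rw [SimpleGraph.connected_iff_exists_forall_reachable]
    refine ⟨1, fun v => ?_⟩
    fin_cases v
    · exact h01.symm.reachable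
    · rfl
    · exact h12.reachable
  · intro e
    have := pi_pos
    fin_cases e <;> simp <;> linarith
  · rw [Fintype.linearIndependent_iff]
    intro g hg
    simp only [Fin.sum_univ_three, Matrix.cons_val_zero, Matrix.cons_val_one, zsmul_eq_mul,
      Matrix.cons_val] at hg
    obtain ⟨h1, h2, h3⟩ := hind (g 0 + g 1) (g 1) (g 2) (by push_cast; linarith)
    intro i
    fin_cases i
    · simp only [Fin.zero_eta]; omega
    · exact h2
    · exact h3
  · refine ⟨![sin, fun x => -sin x, fun x => sin a * cos x + 2 * cos a * sin x],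
      ![cos, fun x => -cos x, fun x => -(sin a * sin x) + 2 * cos a * cos x],
      fun _ _ _ => 0, fun _ _ _ => 0, ![0, sin a, sin a * cos c + 2 * cos a * sin c],
      ?_, ?_, ?_, ?_, ?_, ?_, ?_⟩
    · intro e x _
      fin_cases e
      · exact ⟨(hasDerivAt_sin x).hasDerivWithinAt,
          ((hasDerivAt_cos x).congr_deriv (by simp)).hasDerivWithinAt⟩
      · exact ⟨(hasDerivAt_sin x).neg.hasDerivWithinAt,
          ((hasDerivAt_cos x).neg.congr_deriv (by simp)).hasDerivWithinAt⟩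
      · exact ⟨((((hasDerivAt_cos x).const_mul (sin a)).add
            ((hasDerivAt_sin x).const_mul (2 * cos a))).congr_deriv (by simp)).hasDerivWithinAt,
          ((((hasDerivAt_sin x).const_mul (sin a)).neg.add
            ((hasDerivAt_cos x).const_mul (2 * cos a))).congr_deriv
              (by simp; ring)).hasDerivWithinAt⟩
    · intro v j x _
      exact ⟨hasDerivWithinAt_const _ _ _, by simpa using hasDerivWithinAt_const x (Ici 0) (0 : ℝ)⟩
    · intro v j
      exact MemLp.zero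
    · intro e
      fin_cases e <;> simp [sin_add_pi]
    · intro v j
      fin_cases v
      · simp
      · exact j.elim0
      · exact j.elim0
    · intro v
      simp only [Finset.sum_filter, Fin.sum_univ_three, Finset.sum_const_zero]
      fin_cases v
      · simp
      · simp [cos_add_pi]; ring
      · simp
        rw [hsa]
        linear_combination (cos a) * hsc
    · refine ⟨0, a, ⟨ha0.le, le_rfl⟩, ?_⟩
      have : 0 < sin a := by rw [hsa]; positivity
      exact this.ne'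

end Pool.Agent.Results.MP_332ffb_mp.Counter
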